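import Mathlib
import Pool.Agent.H15.W.C.Adm

set_option autoImplicit false
open Finset

/-! # Route W, family form of chapter C (helper39): instances of the abstract functionals, first order

`vtog_VM`, `vtogX_VM`, `vloc_VM` : the functional of one environment. `VTog_sum`, `VTogX_sum`,
`VLoc_sum` : finite complex combinations. `classesV`, `sum_firstV`, `firstV` : from the ties to the
clusters, first order expansion. -/

namespace Pool.Agent.H39.W

open Pool.Agent.H75.Perc Pool.Agent.H75.TwoArm Pool.Agent.H75.Four Pool.Agent.H69.Q1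
open Pool.Agent.Q1 Pool.Agent.H25.Q1.Add Pool.Agent.H99.NC Pool.Agent.H49.Perc
open Pool.Agent.H60.Q1 Pool.Agent.H39.Q1
open Pool.Agent.H15.W (DV TotV Tot0V VTog VTogX VLoc DV_free farV)
open Pool.Agent.H20.Q1 (Eh CS hf)

variable {ι : Type*} [DecidableEq ι] {X : Env} {W Bb B TT Cs Sg ω ω' θ P G : Finset (ℤ × ℤ)}
  {fm : ℤ × ℤ → ι} {co : ι → Bool} {Wl La Λ : ι → Finset (ℤ × ℤ)}
  {b o : ℤ × ℤ → ℤ × ℤ} {a : ℤ × ℤ → ℂ} {s : ℤ × ℤ → ℂ} {e x w t : ℤ × ℤ} {i : ι} {m ρ r R : ℤ}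
  {V : Finset (ℤ × ℤ) → Finset (ℤ × ℤ) → ℂ}

/-! ### the functional of one environment -/

theorem vtog_VM (h : Multi X W Bb B TT fm co Wl La b o)
    (hc : ∀ c ∈ Cs, FarM X TT fm co Wl La b o c) :
    VTog (VM X Cs a Bb B TT fm co) W B TT fm co Wl La b o :=
  fun _ hω _ hP _ he heP hcase => h.toggle hc hω hP he heP hcase

theorem vtogX_VM (h : Multi X W Bb B TT fm co Wl La b o)
    (hc : ∀ c ∈ Cs, FarM X TT fm co Wl Λ b o c) :
    VTogX (VM X Cs a Bb B TT fm co) W Bb B TT fm co Wl Λ b :=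
  fun _ hΛ _ hω _ hP _ he hei heP hcase => h.toggleX hc hΛ hω hP he hei heP hcase

theorem vloc_VM (h : Multi X W Bb B TT fm co Wl La b o)
    (hc : ∀ c ∈ Cs, FarM X TT fm co Wl La b o c) (hS : ∀ c ∈ Cs, lab c ∈ Sg) :
    VLoc (VM X Cs a Bb B TT fm co) X W Bb B TT Sg fm co Wl La b o :=
  fun _ he _ _ _ _ _ hG h1 h2 h3 hCs =>
    h.loc (a := a) hc hG h1 h2 h3 he fun c hc' => hCs _ (hS c hc')

/-! ### linearity -/

section lin

variable {κ : Type*} {K : Finset κ} {wt : κ → ℂ}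
  {Vk : κ → Finset (ℤ × ℤ) → Finset (ℤ × ℤ) → ℂ}

theorem VTog_sum (h : ∀ k ∈ K, VTog (Vk k) W B TT fm co Wl La b o) :
    VTog (fun ω P => ∑ k ∈ K, wt k * Vk k ω P) W B TT fm co Wl La b o :=
  fun ω h1 P h2 e h3 h4 h5 => sum_congr rfl fun k hk => by rw [h k hk ω h1 P h2 e h3 h4 h5]

theorem VTogX_sum (h : ∀ k ∈ K, VTogX (Vk k) W Bb B TT fm co Wl Λ b) :
    VTogX (fun ω P => ∑ k ∈ K, wt k * Vk k ω P) W Bb B TT fm co Wl Λ b :=
  fun i hi ω h1 P h2 e h3 h4 h5 h6 => sum_congr rfl fun k hk => by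
    rw [h k hk i hi ω h1 P h2 e h3 h4 h5 h6]

theorem VLoc_sum (h : ∀ k ∈ K, VLoc (Vk k) X W Bb B TT Sg fm co Wl La b o) :
    VLoc (fun ω P => ∑ k ∈ K, wt k * Vk k ω P) X W Bb B TT Sg fm co Wl La b o := by
  classical
  intro e he w m ρ r R hG h1 h2 h3 hS
  choose! Ψ hΨ using fun k hk => h k hk e he w m ρ r R hG h1 h2 h3 hS
  refine ⟨fun z => ∑ k ∈ K, wt k * Ψ k z, fun ω hω t g1 g2 g3 => ?_⟩
  unfold DV
  rw [← sum_sub_distrib]
  refine sum_congr rfl fun k hk => ?_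
  rw [← mul_sub, ← hΨ k hk ω hω t g1 g2 g3]
  rfl

/-- the wall is the same for all environments whose root is not in the box -/
lemma wallG_root {X' : Env} (h : WallG X W Bb TT fm co Wl La b o e w m R)
    (hr : lab X'.c0 ∉ bx (co (fm e)) w R) : WallG X' W Bb TT fm co Wl La b o e w m R := by
  unfold WallG at h ⊢
  unfold bx at hr
  split_ifs at h hr ⊢ with hc
  · exact ⟨h.inb, hr, h.wsub, h.conn, h.b1, h.b2, h.sep, h.oe, h.ne⟩
  · exact ⟨h.inb, hr, h.cov, h.conn, h.b1, h.b2, h.sep, h.oe, h.ne⟩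

/-- change of the reference environment -/
theorem VLoc_root {X' : Env} (h : VLoc V X W Bb B TT Sg fm co Wl La b o)
    (hr : lab X.c0 ∈ Sg) : VLoc V X' W Bb B TT Sg fm co Wl La b o :=
  fun e he w m ρ r R hG h1 h2 h3 hS => h e he w m ρ r R (wallG_root hG (hS _ hr)) h1 h2 h3 hS

/-- more marked labels -/
theorem VLoc_mono {Sg' : Finset (ℤ × ℤ)} (h : VLoc V X W Bb B TT Sg fm co Wl La b o)
    (hS : Sg ⊆ Sg') : VLoc V X W Bb B TT Sg' fm co Wl La b o :=
  fun e he w m ρ r R hG h1 h2 h3 h4 => h e he w m ρ r R hG h1 h2 h3 fun l hl => h4 l (hS hl)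

end lin

/-! ### from the ties to the clusters -/

/-- **From the ties to the clusters.** `s e` : weight of the tie `e` being cut. -/
theorem classesV (h : VTog V W B TT fm co Wl La b o) (hω : ω ⊆ B) :
    Ec (fun e => 1 - s e) TT (V ω) =
      cE (fun k => ∏ e ∈ k, s e) (JM W TT fm co Wl La b o ω)
        (fun A => V ω (unc TT fm co La b ω A)) := by
  classical
  have key := Ec_ties (Ti := TT) (fun e => 1 - s e)
    (R := fun e e' => e' ∈ cls TT fm co La b ω e) (cls TT fm co La b ω)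
    (fun e he e' he' => cls_iff he') (free := fre W TT fm co Wl La b o ω)
    (F := V ω)
    (fun P hP e he heP hcase => h ω hω P hP e he heP hcase)
  rw [key]
  unfold JM unc
  refine cE_congr (fun k hk => ?_) fun A _ => rfl
  obtain ⟨e0, he0, rfl⟩ := mem_image.1 hk
  unfold phc
  rw [fib_cls]
  exact prod_congr rfl fun e _ => by ring

/-- the first order term as a sum over the ties -/
lemma sum_firstV (h : Multi X W Bb B TT fm co Wl La b o)
    (hV : VTog V W B TT fm co Wl La b o) {rk : ℤ × ℤ → ℤ} (hω : ω ⊆ B)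
    (hrk : ∀ e ∈ TT, ∀ e' ∈ TT, rk e = rk e' → e = e') :
    ∑ k ∈ JM W TT fm co Wl La b o ω, (∏ e ∈ k, s e) *
      (V ω (unc TT fm co La b ω {k}) - V ω (unc TT fm co La b ω ∅)) =
    ∑ e ∈ TT, FT (TF TT fm (fm e)) b rk s e (SM TT fm co La b e ω) *
        DV V TT fm co La b e ω := by
  classical
  set U : Finset (Finset (ℤ × ℤ)) → ℂ := fun A => V ω (unc TT fm co La b ω A) with hU
  set g : Finset (ℤ × ℤ) → ℂ := fun k => (∏ e ∈ k, s e) * (U {k} - U ∅) with hg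
  have hD : ∀ e, U {cls TT fm co La b ω e} - U ∅ = DV V TT fm co La b e ω := by
    intro e
    rw [hU]
    simp only
    rw [unc_single, unc_empty]
    rfl
  have h1 : ∑ k ∈ JM W TT fm co Wl La b o ω, g k =
      ∑ k ∈ TT.image (cls TT fm co La b ω), g k := by
    unfold JM
    refine sum_subset (image_subset_image (filter_subset _ _)) fun k h1 h2 => ?_
    obtain ⟨e, he, rfl⟩ := mem_image.1 h1
    have hf : fre W TT fm co Wl La b o ω e := by
      by_contra hf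
      exact h2 (mem_image_of_mem _ (mem_filter.2 ⟨he, hf⟩))
    rw [hg]
    simp only
    rw [hD, DV_free h hV hω he hf, mul_zero]
  have h2 : ∑ k ∈ JM W TT fm co Wl La b o ω, (∏ e ∈ k, s e) * (U {k} - U ∅) =
      ∑ k ∈ JM W TT fm co Wl La b o ω, g k := rfl
  rw [h2, h1, sum_min (rk := rk) (fun e he => self_cls he) (fun e _ => cls_sub)
    (fun e _ e' he' => cls_eq_of he') hrk]
  refine sum_congr rfl fun e he => ?_
  rw [FT_cls, ← hD e]
  split_ifs <;> ring

lemma TotV_VM (h : Multi X W Bb B TT fm co Wl La b o) :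
    TotV (VM X Cs a Bb B TT fm co) B TT s = Tot X Cs a Bb TT fm co s := by
  unfold Tot TotV
  symm
  refine (Ec_split _ h.bB _).trans (Ec_congr fun ω hω => ?_)
  exact Ec_swap (fun _ => (1 / 2 : ℂ)) (fun e => 1 - s e) (Bb \ B) TT
      (fun ω' P => U X Cs a (ω ∪ ω' ∪ opn TT fm co P))

lemma Eh_VM (h : Multi X W Bb B TT fm co Wl La b o) :
    Eh B (fun ω => VM X Cs a Bb B TT fm co ω P) =
      Eh Bb (fun ω => U X Cs a (ω ∪ opn TT fm co P)) := by
  symm
  exact (Ec_split _ h.bB _).trans (Ec_congr fun ω hω => rfl)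

/-- **First order expansion.** -/
theorem firstV (h : Multi X W Bb B TT fm co Wl La b o)
    (hV : VTog V W B TT fm co Wl La b o) {rk : ℤ × ℤ → ℤ}
    (hrk : ∀ e ∈ TT, ∀ e' ∈ TT, rk e = rk e' → e = e') {M : ℝ}
    (hM : ∀ ω ⊆ B, ∀ P ⊆ TT, ‖V ω P‖ ≤ M) :
    ‖TotV V B TT s - Tot0V V B TT -
      ∑ e ∈ TT, Eh B (fun ω => FT (TF TT fm (fm e)) b rk s e (SM TT fm co La b e ω) *
        DV V TT fm co La b e ω)‖ ≤
      M * Ex hf B (fun ω => ∑ A ∈ (JM W TT fm co Wl La b o ω).powerset with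
        2 ≤ A.card, ∏ k ∈ A, (2 * ‖∏ e ∈ k, s e‖)) := by
  classical
  set U : Finset (ℤ × ℤ) → Finset (Finset (ℤ × ℤ)) → ℂ :=
    fun ω A => V ω (unc TT fm co La b ω A) with hU
  have e1 : TotV V B TT s = Eh B (fun ω =>
      cE (fun k => ∏ e ∈ k, s e) (JM W TT fm co Wl La b o ω) (U ω)) := by
    unfold TotV
    refine Ec_congr fun ω hω => ?_
    rw [hU]
    simp only
    rw [← classesV hV hω]
  have e2 : Tot0V V B TT = Eh B (fun ω => U ω ∅) := by
    unfold Tot0V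
    refine Ec_congr fun ω hω => ?_
    rw [hU]
    simp only
    rw [unc_empty]
  have e3 : (∑ e ∈ TT, Eh B (fun ω => FT (TF TT fm (fm e)) b rk s e
        (SM TT fm co La b e ω) * DV V TT fm co La b e ω)) =
      Eh B (fun ω => ∑ k ∈ JM W TT fm co Wl La b o ω, (∏ e ∈ k, s e) *
        (U ω {k} - U ω ∅)) := by
    symm
    refine (Ec_congr fun ω hω => sum_firstV (s := s) h hV hω hrk).trans ?_
    exact Ec_sum _ _ _ _
  rw [e1, e2, e3]
  rw [← Ec_sub, ← Ec_sub]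
  have hb : ∀ ω, ω ⊆ B → ‖cE (fun k => ∏ e ∈ k, s e) (JM W TT fm co Wl La b o ω)
        (U ω) - U ω ∅ - ∑ k ∈ JM W TT fm co Wl La b o ω, (∏ e ∈ k, s e) *
        (U ω {k} - U ω ∅)‖ ≤
      M * ∑ A ∈ (JM W TT fm co Wl La b o ω).powerset with
        2 ≤ A.card, ∏ k ∈ A, (2 * ‖∏ e ∈ k, s e‖) := by
    intro ω hω
    have := first_order (φ := fun k => ∏ e ∈ k, s e) (s := JM W TT fm co Wl La b o ω)
      (F := U ω) (M := M) (fun A _ => hM ω hω _ (filter_subset _ _))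
    simpa only [smul_eq_mul] using this
  refine (Ec_half_norm hb).trans (le_of_eq ?_)
  exact Ex_smul _ _ _ _

end Pool.Agent.H39.W
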